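import Mathlib
import Pool.Agent.H932R4.CMO.Stmts

set_option autoImplicit false

open Finset

namespace Pool.Agent.H932R4.CMO.T1h511

open Pool.Agent.H932R4.CMO
open Classical in
/-- one step of the recursion -/
noncomputable def step (ε : ℝ) (N₀ : ℕ) (n : ℕ) (g : (k : ℕ) → k < n → ℝ) : ℝ :=
  if n.Prime then
    if n < N₀ then 0 else - clip (Bd ε n) (∑ k ∈ range n, if h : k < n then g k h else 0)
  else if n = 0 then 0
  else n.factorization.prod fun p k => (if h : p < n then g p h else 0) ^ k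

noncomputable def gr (ε : ℝ) (N₀ : ℕ) : ℕ → ℝ := WellFounded.fix Nat.lt_wfRel.wf (step ε N₀)

lemma gr_eq (ε : ℝ) (N₀ : ℕ) (n : ℕ) : gr ε N₀ n = step ε N₀ n fun k _ => gr ε N₀ k :=
  WellFounded.fix_eq Nat.lt_wfRel.wf (step ε N₀) n

lemma gr_zero (ε : ℝ) (N₀ : ℕ) : gr ε N₀ 0 = 0 := by
  rw [gr_eq]
  unfold step
  rw [if_neg Nat.not_prime_zero, if_pos rfl]

lemma gr_fac (ε : ℝ) (N₀ : ℕ) (n : ℕ) (hn : n ≠ 0) :
    gr ε N₀ n = n.factorization.prod fun p k => gr ε N₀ p ^ k := by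
  by_cases hp : n.Prime
  · rw [hp.factorization, Finsupp.prod_single_index (h := fun p k => gr ε N₀ p ^ k) (pow_zero _),
      pow_one]
  · rw [gr_eq]
    unfold step
    rw [if_neg hp, if_neg hn]
    refine Finset.prod_congr rfl fun p hpn => ?_
    have hpn' : p ∈ n.primeFactors := hpn
    have h1 := Nat.prime_of_mem_primeFactors hpn'
    have h2 : p ≤ n := Nat.le_of_mem_primeFactors hpn'
    have h3 : p ≠ n := fun h => hp (h ▸ h1)
    simp only
    rw [dif_pos (lt_of_le_of_ne h2 h3)]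

end Pool.Agent.H932R4.CMO.T1h511

namespace Pool.Agent.H932R4.CMO

open T1h511 in
/-- existence of the clipped greedy function -/
theorem t1 : T1 := by
  intro ε N₀
  refine ⟨gr ε N₀, gr_zero ε N₀, ?_, ?_, ?_, ?_⟩
  · rw [gr_fac ε N₀ 1 one_ne_zero, Nat.factorization_one, Finsupp.prod_zero_index]
  · intro m n
    by_cases hm : m = 0
    · rw [hm, zero_mul, gr_zero, zero_mul]
    by_cases hn : n = 0
    · rw [hn, mul_zero, gr_zero, mul_zero]
    rw [gr_fac ε N₀ (m * n) (mul_ne_zero hm hn), gr_fac ε N₀ m hm, gr_fac ε N₀ n hn,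
      Nat.factorization_mul hm hn]
    exact Finsupp.prod_add_index' (fun _ => pow_zero _) (fun _ _ _ => pow_add _ _ _)
  · intro p hp hpN
    rw [gr_eq]
    unfold step
    rw [if_pos hp, if_pos hpN]
  · intro p hp hpN
    rw [gr_eq]
    unfold step
    rw [if_pos hp, if_neg (not_lt.2 hpN)]
    congr 2
    refine sum_congr rfl fun k hk => ?_
    rw [dif_pos (mem_range.1 hk)]

end Pool.Agent.H932R4.CMO
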